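import Pool.Agent.H77.OF.Local2
import Mathlib.MeasureTheory.Covering.DensityTheorem

/-!
Cells of the base b expansion, words of real numbers, density points.
-/

namespace Pool.Agent.H43.RRL

open Pool.Agent.H77.RT Pool.Agent.H77.OL Pool.Agent.H77.OF MeasureTheory Filter Topology Set

/-- the first `N` digits of `y` -/
noncomputable def wd {b : ℕ} (hb : 2 ≤ b) (N : ℕ) (y : ℝ) : Fin N → Fin b := fun i => du hb y i

theorem hor_wd {b : ℕ} (hb : 2 ≤ b) {y : ℝ} (h0 : 0 ≤ y) (h1 : y < 1) (N : ℕ) :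
    hor b (dg (wd hb N y)) N = ⌊y * (b : ℝ) ^ N⌋ := by
  rw [← hor_dig hb h0 h1]
  apply hor_congr
  intro i hi
  unfold dg
  rw [dif_pos hi]
  rfl

theorem val_wd {b : ℕ} (hb : 2 ≤ b) {y : ℝ} (h0 : 0 ≤ y) (h1 : y < 1) (N : ℕ) :
    val b (wd hb N y) = (⌊y * (b : ℝ) ^ N⌋ : ℝ) / (b : ℝ) ^ N := by
  unfold val
  rw [hor_wd hb h0 h1]

theorem val_wd_le {b : ℕ} (hb : 2 ≤ b) {y : ℝ} (h0 : 0 ≤ y) (h1 : y < 1) (N : ℕ) :
    val b (wd hb N y) ≤ y := by
  have hp : (0 : ℝ) < (b : ℝ) ^ N := by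
    have : (0 : ℝ) < b := by exact_mod_cast (by omega : 0 < b)
    positivity
  rw [val_wd hb h0 h1, div_le_iff₀ hp]
  exact Int.floor_le _

theorem lt_val_wd {b : ℕ} (hb : 2 ≤ b) {y : ℝ} (h0 : 0 ≤ y) (h1 : y < 1) (N : ℕ) :
    y < val b (wd hb N y) + 1 / (b : ℝ) ^ N := by
  have hp : (0 : ℝ) < (b : ℝ) ^ N := by
    have : (0 : ℝ) < b := by exact_mod_cast (by omega : 0 < b)
    positivity
  rw [val_wd hb h0 h1, ← add_div, lt_div_iff₀ hp]
  exact Int.lt_floor_add_one _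

theorem floor_eq_of_le {b : ℕ} (hb : 2 ≤ b) {y y' : ℝ} {a : ℕ}
    (h : ⌊y * (b : ℝ) ^ a⌋ = ⌊y' * (b : ℝ) ^ a⌋) {m : ℕ} (hm : m ≤ a) :
    ⌊y * (b : ℝ) ^ m⌋ = ⌊y' * (b : ℝ) ^ m⌋ := by
  induction hm using Nat.decreasingInduction with
  | self => exact h
  | of_succ k hk ih =>
    have h1 := floor_succ hb y k
    have h2 := floor_succ hb y' k
    have l1 := dig_lt hb y k
    have l2 := dig_lt hb y' k
    rw [ih, h2] at h1
    have hb0 : (0 : ℤ) < b := by exact_mod_cast (by omega : 0 < b)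
    have e1 : ((b : ℤ) * ⌊y' * (b : ℝ) ^ k⌋ + (dig b y' k : ℤ)) / b = ⌊y' * (b : ℝ) ^ k⌋ := by
      rw [Int.mul_add_ediv_left _ _ hb0.ne']
      rw [Int.ediv_eq_zero_of_lt (by positivity) (by exact_mod_cast l2)]
      ring
    have e2 : ((b : ℤ) * ⌊y * (b : ℝ) ^ k⌋ + (dig b y k : ℤ)) / b = ⌊y * (b : ℝ) ^ k⌋ := by
      rw [Int.mul_add_ediv_left _ _ hb0.ne']
      rw [Int.ediv_eq_zero_of_lt (by positivity) (by exact_mod_cast l1)]
      ring
    rw [← e2, ← h1, e1]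

theorem dig_eq {b : ℕ} (hb : 2 ≤ b) {y y' : ℝ} {a : ℕ}
    (h : ⌊y * (b : ℝ) ^ a⌋ = ⌊y' * (b : ℝ) ^ a⌋) {i : ℕ} (hi : i < a) :
    du hb y i = du hb y' i := by
  apply Fin.ext
  show dig b y i = dig b y' i
  unfold dig
  rw [floor_eq_of_le hb h (show i + 1 ≤ a from hi)]

/-- the closed cell of level `a` that contains `y` -/
noncomputable def cell (b a : ℕ) (y : ℝ) : Set ℝ :=
  Icc ((⌊y * (b : ℝ) ^ a⌋ : ℝ) / (b : ℝ) ^ a) (((⌊y * (b : ℝ) ^ a⌋ : ℝ) + 1) / (b : ℝ) ^ a)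

theorem floor_of_mem {b a : ℕ} (hb : 2 ≤ b) {y y' : ℝ} (h : y' ∈ cell b a y)
    (hne : y' ≠ ((⌊y * (b : ℝ) ^ a⌋ : ℝ) + 1) / (b : ℝ) ^ a) :
    ⌊y' * (b : ℝ) ^ a⌋ = ⌊y * (b : ℝ) ^ a⌋ := by
  have hp : (0 : ℝ) < (b : ℝ) ^ a := by
    have : (0 : ℝ) < b := by exact_mod_cast (by omega : 0 < b)
    positivity
  rw [Int.floor_eq_iff]
  obtain ⟨h1, h2⟩ := h
  have h3 := lt_of_le_of_ne h2 hne
  rw [div_le_iff₀ hp] at h1
  rw [lt_div_iff₀ hp] at h3
  exact ⟨h1, h3⟩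

theorem volume_cell {b a : ℕ} (y : ℝ) :
    volume (cell b a y) = ENNReal.ofReal (1 / (b : ℝ) ^ a) := by
  unfold cell
  rw [Real.volume_Icc, ← sub_div, add_sub_cancel_left]

/-- the measure of a set that is covered by the cells of some words -/
theorem volume_le {b N a : ℕ} (hb : 2 ≤ b) {S : Set ℝ} {y : ℝ} (hS : ∀ x ∈ S, 0 ≤ x ∧ x < 1)
    (W : Finset (Fin N → Fin b))
    (hW : ∀ x ∈ S, ⌊x * (b : ℝ) ^ a⌋ = ⌊y * (b : ℝ) ^ a⌋ → wd hb N x ∈ W) :
    volume (S ∩ cell b a y) ≤ ENNReal.ofReal (W.card / (b : ℝ) ^ N) := by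
  have hp : (0 : ℝ) < (b : ℝ) ^ N := by
    have : (0 : ℝ) < b := by exact_mod_cast (by omega : 0 < b)
    positivity
  have hsub : S ∩ cell b a y ⊆ {((⌊y * (b : ℝ) ^ a⌋ : ℝ) + 1) / (b : ℝ) ^ a} ∪
      ⋃ w ∈ W, Ico (val b w) (val b w + 1 / (b : ℝ) ^ N) := by
    rintro x ⟨hx, hc⟩
    by_cases hne : x = ((⌊y * (b : ℝ) ^ a⌋ : ℝ) + 1) / (b : ℝ) ^ a
    · exact Or.inl hne
    · right
      obtain ⟨h0, h1⟩ := hS x hx
      simp only [mem_iUnion]
      exact ⟨wd hb N x, hW x hx (floor_of_mem hb hc hne), val_wd_le hb h0 h1 N,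
        lt_val_wd hb h0 h1 N⟩
  calc volume (S ∩ cell b a y) ≤ _ := measure_mono hsub
    _ ≤ volume {((⌊y * (b : ℝ) ^ a⌋ : ℝ) + 1) / (b : ℝ) ^ a} +
        volume (⋃ w ∈ W, Ico (val b w) (val b w + 1 / (b : ℝ) ^ N)) := measure_union_le _ _
    _ ≤ 0 + ∑ w ∈ W, volume (Ico (val b w) (val b w + 1 / (b : ℝ) ^ N)) := by
        gcongr
        · rw [Real.volume_singleton]
        · exact measure_biUnion_finset_le _ _
    _ = ∑ _w ∈ W, ENNReal.ofReal (1 / (b : ℝ) ^ N) := by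
        rw [zero_add]
        apply Finset.sum_congr rfl
        intro w _
        rw [Real.volume_Ico, add_sub_cancel_left]
    _ = ENNReal.ofReal (W.card / (b : ℝ) ^ N) := by
        rw [Finset.sum_const, nsmul_eq_mul, div_eq_mul_one_div (W.card : ℝ),
          ENNReal.ofReal_mul (Nat.cast_nonneg _), ENNReal.ofReal_natCast]

/-- almost every point of a set is a density point for the cells -/
theorem ae_density {b : ℕ} (hb : 2 ≤ b) (S : Set ℝ) : ∀ᵐ y : ℝ, y ∈ S →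
    ∀ᶠ a : ℕ in atTop, ENNReal.ofReal (1 / (b : ℝ) ^ a) ≤ 2 * volume (S ∩ cell b a y) := by
  have h := IsUnifLocDoublingMeasure.ae_tendsto_measure_inter_div (μ := (volume : Measure ℝ)) S 1
  have h' := ae_imp_of_ae_restrict h
  filter_upwards [h'] with y hy hyS
  have hb1 : (1 : ℝ) < b := by exact_mod_cast (by omega : 1 < b)
  have hb0 : (0 : ℝ) < b := by linarith
  have hlim := hy hyS (l := atTop) (fun a : ℕ => ((⌊y * (b : ℝ) ^ a⌋ : ℝ) + 1 / 2) / (b : ℝ) ^ a)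
    (fun a : ℕ => 1 / 2 / (b : ℝ) ^ a) (by
      rw [tendsto_nhdsWithin_iff]
      constructor
      · have := (tendsto_pow_atTop_nhds_zero_of_lt_one (r := 1 / (b : ℝ)) (by positivity)
          (by rw [div_lt_one hb0]; exact hb1)).const_mul (1 / 2)
        rw [mul_zero] at this
        refine this.congr fun a => ?_
        rw [one_div_pow]
        ring
      · exact Eventually.of_forall fun a => by
          show (0 : ℝ) < 1 / 2 / (b : ℝ) ^ a
          positivity) (by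
      apply Eventually.of_forall
      intro a
      have hp : (0 : ℝ) < (b : ℝ) ^ a := by positivity
      rw [Metric.mem_closedBall, Real.dist_eq, one_mul]
      have e1 : y - ((⌊y * (b : ℝ) ^ a⌋ : ℝ) + 1 / 2) / (b : ℝ) ^ a =
        (y * (b : ℝ) ^ a - ⌊y * (b : ℝ) ^ a⌋ - 1 / 2) / (b : ℝ) ^ a := by
        field_simp
        ring
      rw [e1, abs_div, abs_of_pos hp]
      apply div_le_div_of_nonneg_right _ hp.le
      have f1 := Int.floor_le (y * (b : ℝ) ^ a)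
      have f2 := Int.lt_floor_add_one (y * (b : ℝ) ^ a)
      rw [abs_le]
      constructor <;> linarith)
  have hball : ∀ a : ℕ, Metric.closedBall (((⌊y * (b : ℝ) ^ a⌋ : ℝ) + 1 / 2) / (b : ℝ) ^ a)
      (1 / 2 / (b : ℝ) ^ a) = cell b a y := by
    intro a
    rw [Real.closedBall_eq_Icc]
    unfold cell
    congr 1
    · rw [← sub_div]; ring
    · rw [← add_div]; ring
  simp only [hball] at hlim
  have hev := hlim.eventually (lt_mem_nhds (show ((1 : ENNReal) / 2) < 1 from ENNReal.half_lt_self (by simp) (by simp)))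
  filter_upwards [hev] with a ha
  rw [volume_cell] at ha
  have hpos : ENNReal.ofReal (1 / (b : ℝ) ^ a) ≠ 0 := by
    rw [Ne, ENNReal.ofReal_eq_zero, not_le]
    positivity
  have h2 := ENNReal.mul_lt_of_lt_div ha
  calc ENNReal.ofReal (1 / (b : ℝ) ^ a) = 2 * (1 / 2 * ENNReal.ofReal (1 / (b : ℝ) ^ a)) := by
        have h3 : (2 : ENNReal) * (1 / 2) = 1 := by
          rw [one_div]; exact ENNReal.mul_inv_cancel (by simp) (by simp)
        rw [← mul_assoc, h3, one_mul]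
    _ ≤ 2 * volume (S ∩ cell b a y) := by gcongr

end Pool.Agent.H43.RRL
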