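import Pool.Agent.H43.RRL.Cell
import Pool.Agent.H77.RR.Mach

/-!
The core: a machine that prints fast the values of a function with an irrational slope that is not a
Liouville number does this on a set without density points.
-/

namespace Pool.Agent.H43.RRL

open Pool.Agent.H77.RT Pool.Agent.H77.OL Pool.Agent.H77.OF Pool.Agent.H77.RR MeasureTheory Filter
  Topology Set Turing

section raw

variable {K : Type} [DecidableEq K] {Γ : K → Type} {Λ : Type} {σ : Type}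

theorem raw_mono {b : ℕ} {M : Λ → TM2.Stmt Γ Λ σ} {l₀ : Λ} {v₀ : σ} {inp out : K}
    {rd : Fin b → Γ inp} {wr : Γ out → ℤ} {f : ℝ → ℝ} {E : ℝ} {T D T' D' : ℕ → ℕ} {w : List (Fin b)}
    (h : RawComp M l₀ v₀ inp out rd wr f E T D w) (hT : ∀ n ≤ w.length, T n ≤ T' n)
    (hD : ∀ n ≤ w.length, D n ≤ D' n) : RawComp M l₀ v₀ inp out rd wr f E T' D' w := by
  refine ⟨h.reads, h.writes, fun n hn => ?_⟩
  have hnw : n ≤ w.length := by omega
  have h1 := hD n hnw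
  obtain ⟨t, ht, C, hC, c1, c2, c3⟩ := h.works n (by omega)
  exact ⟨t, ht.trans (hT n hnw), C, hC, by omega, c2, c3⟩

theorem raw_fun {b : ℕ} (hb : 2 ≤ b) {M : Λ → TM2.Stmt Γ Λ σ} {l₀ : Λ} {v₀ : σ} {inp out : K}
    {rd : Fin b → Γ inp} {wr : Γ out → ℤ} {f g : ℝ → ℝ} {E C : ℝ} {T D : ℕ → ℕ} {N : ℕ}
    {w : Fin N → Fin b} (h : RawComp M l₀ v₀ inp out rd wr g E T D (List.ofFn w))
    (hz : |f (val b w) - g (val b w)| ≤ C / (b : ℝ) ^ N) :
    RawComp M l₀ v₀ inp out rd wr f (E + C) T D (List.ofFn w) := by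
  refine ⟨h.reads, h.writes, fun n hn => ?_⟩
  obtain ⟨t, ht, Cf, hC, c1, c2, c3⟩ := h.works n hn
  refine ⟨t, ht, Cf, hC, c1, c2, ?_⟩
  have hb1 : (1 : ℝ) ≤ b := by exact_mod_cast (by omega : 1 ≤ b)
  have hnN : n ≤ N := by
    rw [List.length_ofFn] at hn; omega
  have hC0 : 0 ≤ C := by
    have hp : (0 : ℝ) < (b : ℝ) ^ N := by positivity
    have := (abs_nonneg _).trans hz
    rw [le_div_iff₀ hp, zero_mul] at this
    exact this
  rw [vl_word (by omega)]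
  rw [vl_word (by omega)] at c3
  calc _ = |(f (val b w) - g (val b w)) + (g (val b w) -
        vl b (((Cf.stk out).reverse.take n).map wr))| := by
        congr 1; ring
    _ ≤ |f (val b w) - g (val b w)| + |g (val b w) -
        vl b (((Cf.stk out).reverse.take n).map wr)| := abs_add_le _ _
    _ ≤ C / (b : ℝ) ^ n + E / (b : ℝ) ^ n := by
        refine add_le_add (hz.trans ?_) c3
        apply div_le_div_of_nonneg_left hC0 (by positivity)
        exact pow_le_pow_right₀ hb1 hnN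
    _ = (E + C) / (b : ℝ) ^ n := by ring

end raw

/-- the number of words for one value of `i₀` -/
theorem num {b A J i N a W : ℕ} (hb : 2 ≤ b) (hA : 0 < A) (hN : N = 8 * 2 ^ J)
    (hi : (A + 10) * ((A + 10) * (J + 6) + 1) ≤ 2 ^ i)
    (h : W * b ^ (2 ^ i / A) ≤ N ^ A * b ^ (N - a)) : W * (4 * (J + 1)) ≤ b ^ (N - a) := by
  have h1 : (A + 10) * (J + 6) ≤ 2 ^ i / A := by
    rw [Nat.le_div_iff_mul_le hA]
    nlinarith
  have h2 : 2 ^ ((A + 10) * (J + 6)) ≤ b ^ (2 ^ i / A) :=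
    (Nat.pow_le_pow_right (by norm_num) h1).trans (Nat.pow_le_pow_left hb _)
  have h3 : N ^ A = 2 ^ (A * (J + 3)) := by
    rw [hN, show 8 * 2 ^ J = 2 ^ (J + 3) by rw [pow_add]; ring, ← pow_mul]
    congr 1; ring
  have h4 : 4 * (J + 1) ≤ 2 ^ (J + 3) := by
    have : J + 1 ≤ 2 ^ J := Nat.lt_two_pow_self
    rw [pow_add]; omega
  have h5 : N ^ A * (4 * (J + 1)) ≤ 2 ^ ((A + 10) * (J + 6)) := by
    calc N ^ A * (4 * (J + 1)) ≤ 2 ^ (A * (J + 3)) * 2 ^ (J + 3) := by rw [h3]; gcongr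
      _ = 2 ^ (A * (J + 3) + (J + 3)) := by rw [← pow_add]
      _ ≤ _ := Nat.pow_le_pow_right (by norm_num) (by nlinarith)
  have h6 : 0 < N ^ A := by rw [h3]; positivity
  apply Nat.le_of_mul_le_mul_left _ h6
  calc N ^ A * (W * (4 * (J + 1))) = W * (N ^ A * (4 * (J + 1))) := by ring
    _ ≤ W * b ^ (2 ^ i / A) := Nat.mul_le_mul_left _ (h5.trans h2)
    _ ≤ N ^ A * b ^ (N - a) := h

/-- the machine works on the first `8 * 2 ^ J` digits of `y` -/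
def At {b : ℕ} (hb : 2 ≤ b) (M : Mach b) (E z : ℝ) (A J : ℕ) (y : ℝ) (i L : ℕ) : Prop :=
  J = i + L ∧ A * (A * (J + 6) + 1) ≤ 2 ^ i ∧ ∃ Ts Ds : ℕ, A * Ts < L * 2 ^ J ∧
    A * (Ds + 2) ≤ 2 ^ i ∧ RawComp M.prog M.l₀ M.v₀ M.inp M.out M.rd M.wr (fun _ => z) E
      (fun _ => Ts) (fun _ => Ds) (List.ofFn (wd hb (8 * 2 ^ J) y))

theorem At.raw {b : ℕ} {hb : 2 ≤ b} {M : Mach b} {E z : ℝ} {A J : ℕ} {y : ℝ} {i L : ℕ} (hA : 0 < A)
    (h : At hb M E z A J y i L) : 0 < L * 2 ^ J ∧ 2 ≤ 2 ^ i / A ∧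
    RawComp M.prog M.l₀ M.v₀ M.inp M.out M.rd M.wr (fun _ => z) E
      (fun _ => (L * 2 ^ J - 1) / A) (fun _ => 2 ^ i / A - 2) (List.ofFn (wd hb (8 * 2 ^ J) y)) := by
  obtain ⟨-, -, Ts, Ds, h1, h2, h3⟩ := h
  have e1 : Ts ≤ (L * 2 ^ J - 1) / A := by
    rw [Nat.le_div_iff_mul_le hA, mul_comm]; omega
  have e2 : Ds + 2 ≤ 2 ^ i / A := by
    rw [Nat.le_div_iff_mul_le hA, mul_comm]; exact h2
  exact ⟨by omega, by omega, raw_mono h3 (fun _ _ => e1) (fun _ _ => by omega)⟩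

theorem core {b : ℕ} (hb : 2 ≤ b) (M : Mach b) (E C : ℝ) {α : ℝ} (hα : ¬ Liouville α)
    (hirr : Irrational α) (hC : 0 ≤ C) :
    ∃ A : ℕ, 0 < A ∧ ∀ (f : ℝ → ℝ) (δ y₀ : ℝ) (S : Set ℝ) (J₀ : ℕ), 0 < δ → 0 ≤ y₀ → y₀ < 1 →
      (∀ x x', |x - y₀| ≤ δ → |x' - y₀| ≤ δ → |f x - f x'| ≤ C * |x - x'|) →
      (∀ ρ x x', ρ ≤ δ → |x - y₀| ≤ ρ → |x' - y₀| ≤ ρ →
        |f x - f x' - α * (x - x')| ≤ C * ρ * |x - x'|) →
      (∀ y ∈ S, 0 ≤ y ∧ y < 1) →
      (∀ y ∈ S, |y - y₀| ≤ δ → ∀ J ≥ J₀, ∃ i L, At hb M E (f y) A J y i L) →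
      ¬ ∀ᶠ a : ℕ in atTop, ENNReal.ofReal (1 / (b : ℝ) ^ a) ≤ 2 * volume (S ∩ cell b a y₀) := by
  classical
  obtain ⟨A, hA, heng⟩ := Pool.Agent.H77.OF.engine hb hα hirr M.prog M.l₀ M.v₀ M.ne.symm M.rd M.wr (E + C)
  refine ⟨A + 10, by omega, ?_⟩
  intro f δ y₀ S J₀ hδ h0 h1 hf1 hf2 hS01 hS hev
  have hb1 : (1 : ℝ) < b := by exact_mod_cast (by omega : 1 < b)
  have hb0 : (0 : ℝ) < b := by linarith
  have hα0 : 0 < |α| := abs_pos.2 hirr.ne_zero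
  have htend := (tendsto_pow_atTop_atTop_of_one_lt hb1).comp two_pow_tendsto
  have ev1 : ∀ᶠ J : ℕ in atTop, C ≤ (b : ℝ) ^ (2 ^ J) := htend.eventually_ge_atTop C
  have ev2 : ∀ᶠ J : ℕ in atTop, 2 / |α| ≤ (b : ℝ) ^ (2 ^ J) := htend.eventually_ge_atTop _
  have ev3 : ∀ᶠ J : ℕ in atTop, 1 / δ ≤ (b : ℝ) ^ (2 ^ J) := htend.eventually_ge_atTop _
  have hcell : Tendsto (fun J : ℕ => 4 * 2 ^ J) atTop atTop :=
    tendsto_atTop_mono (fun J => by omega) two_pow_tendsto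
  obtain ⟨J, c4, c5, c6, c7, hJ0⟩ := (ev1.and (ev2.and (ev3.and ((hcell.eventually hev).and
    (eventually_ge_atTop J₀))))).exists
  obtain ⟨N, hN⟩ : ∃ N, N = 8 * 2 ^ J := ⟨_, rfl⟩
  obtain ⟨a₀, ha₀⟩ : ∃ a₀, a₀ = 4 * 2 ^ J := ⟨_, rfl⟩
  rw [← ha₀] at c7
  have hNa : N = a₀ + 4 * 2 ^ J := by rw [hN, ha₀]; ring
  obtain ⟨ρ, hρ⟩ : ∃ ρ : ℝ, ρ = 1 / (b : ℝ) ^ a₀ := ⟨_, rfl⟩
  have hρ0 : 0 < ρ := by rw [hρ]; positivity
  have hρδ : ρ ≤ δ := by
    have h2 : (b : ℝ) ^ (2 ^ J) ≤ (b : ℝ) ^ a₀ := by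
      apply pow_le_pow_right₀ hb1.le; rw [ha₀]; omega
    rw [hρ, div_le_iff₀ (by positivity)]
    rw [div_le_iff₀ hδ] at c6
    nlinarith
  have hη : C * ρ ≤ 1 / (b : ℝ) ^ (2 * 2 ^ J) := by
    calc C * ρ ≤ (b : ℝ) ^ (2 ^ J) * (1 / (b : ℝ) ^ (3 * 2 ^ J)) := by
          apply mul_le_mul c4 _ hρ0.le (by positivity)
          rw [hρ]
          apply one_div_le_one_div_of_le (by positivity)
          apply pow_le_pow_right₀ hb1.le
          rw [ha₀]; omega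
      _ = 1 / (b : ℝ) ^ (2 * 2 ^ J) := by
          rw [show 3 * 2 ^ J = 2 ^ J + 2 * 2 ^ J by ring, pow_add]
          field_simp
  have hηα : C * ρ ≤ |α| / 2 := by
    refine hη.trans ?_
    rw [div_le_iff₀ hα0] at c5
    have h2 : (b : ℝ) ^ (2 ^ J) ≤ (b : ℝ) ^ (2 * 2 ^ J) := pow_le_pow_right₀ hb1.le (by omega)
    rw [div_le_iff₀ (by positivity)]
    nlinarith
  have hclose : ∀ w w' : Fin N → Fin b, Pre a₀ (du hb y₀) w → Pre a₀ (du hb y₀) w' →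
      |f (val b w) - f (val b w') - α * (val b w - val b w')| ≤ C * ρ * |val b w - val b w'| := by
    intro w w' hw hw'
    have h2 := pre_close hb h0 h1 (by omega) hw
    have h3 := pre_close hb h0 h1 (by omega) hw'
    rw [← hρ] at h2 h3
    exact hf2 ρ _ _ hρδ h2 h3
  -- the words
  let P : ℕ → (Fin N → Fin b) → Prop := fun i w => ∃ y ∈ S,
    ⌊y * (b : ℝ) ^ a₀⌋ = ⌊y₀ * (b : ℝ) ^ a₀⌋ ∧ w = wd hb N y ∧ ∃ L, At hb M E (f y) (A + 10) J y i L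
  have hpre : ∀ i w, P i w → Pre a₀ (du hb y₀) w := by
    rintro i w ⟨y, hy, hfl, hw, -⟩ j hj
    rw [hw]
    exact dig_eq hb hfl hj
  have hnear : ∀ y, 0 ≤ y → y < 1 → ⌊y * (b : ℝ) ^ a₀⌋ = ⌊y₀ * (b : ℝ) ^ a₀⌋ → |y - y₀| ≤ ρ := by
    intro y _ _ hfl
    have hp : (0 : ℝ) < (b : ℝ) ^ a₀ := by positivity
    have h2 := Int.abs_sub_lt_one_of_floor_eq_floor hfl
    rw [← sub_mul, abs_mul, abs_of_pos hp] at h2
    rw [hρ, le_div_iff₀ hp]
    exact h2.le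
  have hcard : ∀ i ≤ J, ∀ W : Finset (Fin N → Fin b), (∀ w ∈ W, P i w) →
      W.card * (4 * (J + 1)) ≤ b ^ (N - a₀) := by
    intro i hi W hW
    rcases W.eq_empty_or_nonempty with hW0 | ⟨w₀, hw₀⟩
    · rw [hW0]; simp
    obtain ⟨L, hL⟩ : ∃ L, J = i + L := ⟨J - i, by omega⟩
    obtain ⟨y₁, -, -, -, L₁, hL₁⟩ := hW w₀ hw₀
    have hLL : L₁ = L := by have := hL₁.1; omega
    subst hLL
    obtain ⟨g1, g2, -⟩ := hL₁.raw (by omega)
    have key := heng f (fun _ => (L₁ * 2 ^ J - 1) / (A + 10)) (fun _ => 2 ^ i / (A + 10) - 2) N i L₁ a₀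
      (du hb y₀) (C * ρ) (by
        intro n _
        rw [← hL]
        have h2 : A * ((L₁ * 2 ^ J - 1) / (A + 10)) ≤ L₁ * 2 ^ J - 1 :=
          (Nat.mul_le_mul_right _ (by omega)).trans (Nat.mul_div_le _ (A + 10))
        omega) (by
        intro n _
        have h2 : 2 ^ i / (A + 10) - 2 + 2 = 2 ^ i / (A + 10) := by omega
        rw [h2]
        exact (Nat.mul_le_mul_right _ (by omega)).trans (Nat.mul_div_le _ (A + 10)))
      (by rw [← hL]; omega) hηα (by rw [← hL]; exact hη) hclose W (fun w hw => hpre i w (hW w hw)) (by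
        intro w hw
        obtain ⟨y, hy, hfl, hwy, L₂, hL₂⟩ := hW w hw
        have hLL : L₂ = L₁ := by have := hL₂.1; omega
        subst hLL
        obtain ⟨y0, y1⟩ := hS01 y hy
        have h3 := (hL₂.raw (by omega)).2.2
        rw [← hN, ← hwy] at h3
        apply raw_fun hb h3
        have n1 := hnear y y0 y1 hfl
        have n2 := pre_close hb h0 h1 (by omega) (hpre i w (hW w hw))
        rw [← hρ] at n2
        refine (hf1 _ _ (n2.trans hρδ) (n1.trans hρδ)).trans ?_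
        have n3 : |val b w - y| ≤ 1 / (b : ℝ) ^ N := by
          rw [hwy, abs_sub_comm, abs_of_nonneg (by linarith [val_wd_le hb y0 y1 N])]
          linarith [lt_val_wd hb y0 y1 N]
        calc C * |val b w - y| ≤ C * (1 / (b : ℝ) ^ N) := mul_le_mul_of_nonneg_left n3 hC
          _ = C / (b : ℝ) ^ N := by ring)
    exact num hb hA hN hL₁.2.1 key
  let W : Finset (Fin N → Fin b) := (Finset.range (J + 1)).biUnion
    (fun i => Finset.univ.filter (fun w => P i w))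
  have hWc : W.card * 4 ≤ b ^ (N - a₀) := by
    have h2 : W.card ≤ ∑ i ∈ Finset.range (J + 1), (Finset.univ.filter (fun w => P i w)).card :=
      Finset.card_biUnion_le
    have h3 : (∑ i ∈ Finset.range (J + 1), (Finset.univ.filter (fun w => P i w)).card) *
        (4 * (J + 1)) ≤ (J + 1) * b ^ (N - a₀) := by
      rw [Finset.sum_mul]
      calc _ ≤ ∑ _i ∈ Finset.range (J + 1), b ^ (N - a₀) := by
            apply Finset.sum_le_sum
            intro i hi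
            exact hcard i (by simpa [Nat.lt_succ_iff] using hi) _
              (fun w hw => (Finset.mem_filter.1 hw).2)
        _ = _ := by rw [Finset.sum_const, Finset.card_range, smul_eq_mul]
    have h4 : (J + 1) * (W.card * 4) ≤ (J + 1) * b ^ (N - a₀) := by
      calc (J + 1) * (W.card * 4) = W.card * (4 * (J + 1)) := by ring
        _ ≤ _ := (Nat.mul_le_mul_right _ h2).trans h3
    exact Nat.le_of_mul_le_mul_left h4 (Nat.succ_pos _)
  have hvol := volume_le hb (N := N) (a := a₀) (y := y₀) hS01 W (by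
    intro x hx hfl
    obtain ⟨x0, x1⟩ := hS01 x hx
    obtain ⟨i, L, hi⟩ := hS x hx ((hnear x x0 x1 hfl).trans hρδ) J hJ0
    rw [Finset.mem_biUnion]
    exact ⟨i, Finset.mem_range.2 (by have := hi.1; omega), Finset.mem_filter.2
      ⟨Finset.mem_univ _, x, hx, hfl, rfl, L, hi⟩⟩)
  have hpa : (0 : ℝ) < (b : ℝ) ^ a₀ := by positivity
  have hpN : (0 : ℝ) < (b : ℝ) ^ N := by positivity
  have hfin : ENNReal.ofReal (1 / (b : ℝ) ^ a₀) ≤ ENNReal.ofReal (2 * (W.card / (b : ℝ) ^ N)) := by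
    rw [ENNReal.ofReal_mul (by norm_num)]
    refine c7.trans ?_
    rw [ENNReal.ofReal_ofNat]
    gcongr
  rw [ENNReal.ofReal_le_ofReal_iff (by positivity)] at hfin
  have hpow : (b : ℝ) ^ N = (b : ℝ) ^ (N - a₀) * (b : ℝ) ^ a₀ := by
    rw [← pow_add]; congr 1; omega
  have h5 : (W.card : ℝ) * 4 ≤ (b : ℝ) ^ (N - a₀) := by exact_mod_cast hWc
  have h6 : (0 : ℝ) < (b : ℝ) ^ (N - a₀) := by positivity
  rw [hpow, div_le_iff₀ hpa] at hfin
  have h7 : 2 * ((W.card : ℝ) / ((b : ℝ) ^ (N - a₀) * (b : ℝ) ^ a₀)) * (b : ℝ) ^ a₀ =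
      2 * W.card / (b : ℝ) ^ (N - a₀) := by field_simp
  rw [h7, le_div_iff₀ h6, one_mul] at hfin
  linarith

end Pool.Agent.H43.RRL
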