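import Pool.Agent.H43.RRL.Core
import Pool.Agent.H77.RR.Alg
import Pool.Agent.H77.RR.Null

/-!
For almost every `y`: every number algebraic over `ℚ (y)` that a machine prints fast on-line from the
digits of `y` is a sum of a rational multiple of `y` and an algebraic number.
-/

namespace Pool.Agent.H43.RRL

open Pool.Agent.H77.RT Pool.Agent.H77.OL Pool.Agent.H77.OF Pool.Agent.H77.RR MeasureTheory Filter
  Topology Set Turing Asymptotics Polynomial Polynomial.Bivariate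

theorem alg_aeval {y z : ℝ} (h : IsAlgebraic (IntermediateField.adjoin ℚ {y}) z) (R : ℚ[X][Y]) :
    IsAlgebraic (IntermediateField.adjoin ℚ {y}) (aevalAeval y z R) := by
  have hmem : ∀ p : ℚ[X], aeval y p ∈ IntermediateField.adjoin ℚ {y} := by
    intro p
    have h1 := IntermediateField.algebra_adjoin_le_adjoin ℚ ({y} : Set ℝ)
    apply h1
    rw [Algebra.adjoin_singleton_eq_range_aeval]
    exact ⟨p, rfl⟩
  have halg : ∀ p : ℚ[X], IsAlgebraic (IntermediateField.adjoin ℚ {y}) (aeval y p) := fun p =>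
    isAlgebraic_algebraMap (⟨aeval y p, hmem p⟩ : IntermediateField.adjoin ℚ {y})
  induction R using Polynomial.induction_on' with
  | add a b ha hb => rw [map_add]; exact ha.add hb
  | monomial n a =>
    rw [← C_mul_X_pow_eq_monomial, map_mul, map_pow, aevalAeval_C, aevalAeval_Y]
    exact (halg a).mul (h.pow n)

/-- the sets of the countable family -/
def SS {b : ℕ} (hb : 2 ≤ b) (M : Mach b) (E : ℕ) (P : ℚ[X][Y]) (q₁ q₂ : ℚ) (A J₀ : ℕ) : Set ℝ :=
  {y | 0 ≤ y ∧ y < 1 ∧ ∃ z : ℝ, (q₁ : ℝ) < z ∧ z < q₂ ∧ aevalAeval y z P = 0 ∧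
    ∀ J ≥ J₀, ∃ i L, At hb M (E : ℝ) z A J y i L}

theorem ae_main {b : ℕ} (hb : 2 ≤ b) : ∀ᵐ y : ℝ, 0 ≤ y → y < 1 → ∀ z : ℝ,
    IsAlgebraic (IntermediateField.adjoin ℚ {y}) z → ∀ (M : Mach b) (E : ℝ) (T D : ℕ → ℕ),
      Monotone T → Monotone D → (fun n => (D n : ℝ)) =o[atTop] (fun n => (n : ℝ)) →
      (fun n => (T n : ℝ)) =o[atTop] (fun n => (n : ℝ) * Real.log ((n : ℝ) / ((D n : ℝ) + 1))) →
      (∀ N, RawComp M.prog M.l₀ M.v₀ M.inp M.out M.rd M.wr (fun _ => z) E T D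
        (List.ofFn (wd hb N y))) →
      ∃ (α : ℚ) (β : ℝ), IsAlgebraic ℚ β ∧ z = α * y + β := by
  classical
  have h2 : ∀ᵐ y : ℝ, ∀ (M : Mach b) (E : ℕ) (P : ℚ[X][Y]) (q₁ q₂ : ℚ) (A J₀ : ℕ),
      y ∈ SS hb M E P q₁ q₂ A J₀ → ∀ᶠ a : ℕ in atTop,
        ENNReal.ofReal (1 / (b : ℝ) ^ a) ≤ 2 * volume (SS hb M E P q₁ q₂ A J₀ ∩ cell b a y) := by
    have hc : Countable ℚ[X][Y] := countable_biv
    have hm : Countable (Mach b) := countable_mach b
    rw [ae_all_iff]; intro M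
    rw [ae_all_iff]; intro E
    rw [ae_all_iff]; intro P
    rw [ae_all_iff]; intro q₁
    rw [ae_all_iff]; intro q₂
    rw [ae_all_iff]; intro A
    rw [ae_all_iff]; intro J₀
    exact ae_density hb _
  filter_upwards [ae_good, h2] with y₀ hgood hdens h0 h1 z₀ halg M E T D hTm hDm hD hT hM
  obtain ⟨htr, hL⟩ := hgood
  obtain ⟨P, hP, hz, hmin, hpos, hder⟩ := exists_min htr (exists_poly halg)
  obtain ⟨Q, hQ⟩ : ∃ Q, Q = P.map (mapRingHom (algebraMap ℚ ℝ)) := ⟨_, rfl⟩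
  have hQ0 : Q.evalEval y₀ z₀ = 0 := by rw [hQ, ev_map, hz]
  have hQ1 : (derivative Q).evalEval y₀ z₀ = aevalAeval y₀ z₀ (derivative P) := by
    rw [hQ, derivative_map', ev_map]
  have hQ2 : (dX Q).evalEval y₀ z₀ = aevalAeval y₀ z₀ (dX P) := by
    rw [hQ, dX_map, ev_map]
  obtain ⟨α, hα⟩ : ∃ α, α = Pool.Agent.H77.RR.slope Q y₀ z₀ := ⟨_, rfl⟩
  have hα' : α = -(aevalAeval y₀ z₀ (dX P)) / aevalAeval y₀ z₀ (derivative P) := by
    rw [hα]; unfold Pool.Agent.H77.RR.slope; rw [hQ1, hQ2]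
  by_cases hirr : Irrational α
  · exfalso
    have hαalg : IsAlgebraic (IntermediateField.adjoin ℚ {y₀}) α := by
      rw [hα', div_eq_mul_inv]
      exact ((alg_aeval halg _).neg).mul (alg_aeval halg _).inv
    have hnL := hL α hαalg
    obtain ⟨δ₁, δ₂, C, hδ₁, hδ₂, hC, -, f, hfy, hf1, hf2, hf3, hf4⟩ :=
      branch Q hQ0 (by rw [hQ1]; exact hder)
    obtain ⟨En, hEn⟩ := exists_nat_ge E
    obtain ⟨q₁, hq₁, hq₁'⟩ := exists_rat_btwn (show z₀ - δ₂ < z₀ by linarith)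
    obtain ⟨q₂, hq₂, hq₂'⟩ := exists_rat_btwn (show z₀ < z₀ + δ₂ by linarith)
    obtain ⟨A, hA, hcore⟩ := core hb M (En : ℝ) C hnL hirr hC
    have hev := asyJ (A := A) (B := 8) hA (by norm_num) 6 hD hT
    obtain ⟨J₀, hJ₀⟩ := eventually_atTop.1 hev
    have hmemAt : ∀ J ≥ J₀, ∃ i L, At hb M (En : ℝ) z₀ A J y₀ i L := by
      intro J hJ
      obtain ⟨i, L, e1, e2, e3, e4⟩ := hJ₀ J hJ
      refine ⟨i, L, e1, ?_, T (8 * 2 ^ J), D (8 * 2 ^ J), ?_, e3, ?_⟩
      · have : (A : ℝ) * (A * ((J : ℝ) + 6) + 1) ≤ 2 ^ i := by simpa using e4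
        exact_mod_cast this
      · rw [← e1] at e2; exact e2
      · have h3 := hM (8 * 2 ^ J)
        have h4 : RawComp M.prog M.l₀ M.v₀ M.inp M.out M.rd M.wr (fun _ => z₀) (En : ℝ) T D
            (List.ofFn (wd hb (8 * 2 ^ J) y₀)) := by
          refine ⟨h3.reads, h3.writes, fun n hn => ?_⟩
          obtain ⟨t, ht, Cf, hC, c1, c2, c3⟩ := h3.works n hn
          refine ⟨t, ht, Cf, hC, c1, c2, c3.trans ?_⟩
          have hb0 : (0 : ℝ) < b := by exact_mod_cast (by omega : 0 < b)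
          gcongr
        apply raw_mono h4
        · intro n hn
          rw [List.length_ofFn] at hn
          exact hTm hn
        · intro n hn
          rw [List.length_ofFn] at hn
          exact hDm hn
    have hmem : y₀ ∈ SS hb M En P q₁ q₂ A J₀ := ⟨h0, h1, z₀, hq₁', hq₂, hz, hmemAt⟩
    refine hcore f δ₁ y₀ (SS hb M En P q₁ q₂ A J₀) J₀ hδ₁ h0 h1 hf3 ?_ (fun y hy => ⟨hy.1, hy.2.1⟩) ?_
      (hdens M En P q₁ q₂ A J₀ hmem)
    · rw [hα]; exact hf4
    · rintro y ⟨-, -, z, hz1, hz2, hz3, hz4⟩ hy J hJ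
      have : z = f y := by
        apply hf2 y z hy
        · rw [abs_le]; constructor <;> linarith
        · rw [hQ, ev_map, hz3]
      rw [← this]
      exact hz4 J hJ
  · rw [irrational_iff_ne_rational] at hirr
    push Not at hirr
    have hq : ∃ q : ℚ, α = q := by
      obtain ⟨m, n, hn, hmn⟩ := hirr
      exact ⟨m / n, by rw [hmn]; push_cast; rfl⟩
    obtain ⟨q, hq⟩ := hq
    refine ⟨q, z₀ - q * y₀, ?_, by ring⟩
    apply alg_of_slope htr hP hz hmin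
    rw [hq] at hα'
    rw [eq_div_iff hder] at hα'
    linarith

end Pool.Agent.H43.RRL
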