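import Pool.Agent.H77.OF.Engine3
import Pool.Agent.H77.RR.Mach

/-!
Every finite machine does the same as a machine whose stacks, symbols, labels and states are numbers.
-/

namespace Pool.Agent.H43.RRL

open Pool.Agent.H77.OL Pool.Agent.H77.OF Pool.Agent.H77.RR Turing

section tr

variable {K K' : Type} [DecidableEq K] [DecidableEq K'] {Γ : K → Type} {Γ' : K' → Type}
  {Λ Λ' σ σ' : Type} (eK : K ≃ K') (eΓ : ∀ k, Γ k ≃ Γ' (eK k)) (eΛ : Λ ≃ Λ') (eσ : σ ≃ σ')

/-- transport of statements -/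
def tr : TM2.Stmt Γ Λ σ → TM2.Stmt Γ' Λ' σ'
  | TM2.Stmt.push k f q => TM2.Stmt.push (eK k) (fun v => eΓ k (f (eσ.symm v))) (tr q)
  | TM2.Stmt.peek k f q => TM2.Stmt.peek (eK k)
      (fun v o => eσ (f (eσ.symm v) (o.map (eΓ k).symm))) (tr q)
  | TM2.Stmt.pop k f q => TM2.Stmt.pop (eK k)
      (fun v o => eσ (f (eσ.symm v) (o.map (eΓ k).symm))) (tr q)
  | TM2.Stmt.load f q => TM2.Stmt.load (fun v => eσ (f (eσ.symm v))) (tr q)
  | TM2.Stmt.branch f q q' => TM2.Stmt.branch (fun v => f (eσ.symm v)) (tr q) (tr q')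
  | TM2.Stmt.goto f => TM2.Stmt.goto (fun v => eΛ (f (eσ.symm v)))
  | TM2.Stmt.halt => TM2.Stmt.halt

/-- the stacks are the same -/
def Rel (S : ∀ k, List (Γ k)) (S' : ∀ k, List (Γ' k)) : Prop := ∀ k, S' (eK k) = (S k).map (eΓ k)

theorem rel_update {S : ∀ k, List (Γ k)} {S' : ∀ k, List (Γ' k)} (h : Rel eK eΓ S S') (k : K)
    (l : List (Γ k)) : Rel eK eΓ (Function.update S k l)
      (Function.update S' (eK k) (l.map (eΓ k))) := by
  intro k'
  by_cases hk : k' = k
  · subst hk; simp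
  · rw [Function.update_of_ne hk, Function.update_of_ne (fun h => hk (eK.injective h))]
    exact h k'

theorem tr_step (q : TM2.Stmt Γ Λ σ) : ∀ (v : σ) (S : ∀ k, List (Γ k)) (S' : ∀ k, List (Γ' k)),
    Rel eK eΓ S S' →
    (TM2.stepAux (tr eK eΓ eΛ eσ q) (eσ v) S').l = (TM2.stepAux q v S).l.map eΛ ∧
    (TM2.stepAux (tr eK eΓ eΛ eσ q) (eσ v) S').var = eσ (TM2.stepAux q v S).var ∧
    Rel eK eΓ (TM2.stepAux q v S).stk (TM2.stepAux (tr eK eΓ eΛ eσ q) (eσ v) S').stk := by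
  induction q with
  | push k f q ih =>
    intro v S S' h
    simp only [tr, TM2.stepAux, Equiv.symm_apply_apply]
    rw [h k, ← List.map_cons]
    exact ih v _ _ (rel_update eK eΓ h k _)
  | peek k f q ih =>
    intro v S S' h
    simp only [tr, TM2.stepAux, Equiv.symm_apply_apply]
    rw [h k]
    have e1 : (((S k).map (eΓ k)).head?).map (eΓ k).symm = (S k).head? := by
      cases S k <;> simp
    rw [e1]
    exact ih _ _ _ h
  | pop k f q ih =>
    intro v S S' h
    simp only [tr, TM2.stepAux, Equiv.symm_apply_apply]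
    rw [h k]
    have e1 : (((S k).map (eΓ k)).head?).map (eΓ k).symm = (S k).head? := by
      cases S k <;> simp
    have e2 : ((S k).map (eΓ k)).tail = ((S k).tail).map (eΓ k) := by
      cases S k <;> simp
    rw [e1, e2]
    exact ih _ _ _ (rel_update eK eΓ h k _)
  | load f q ih =>
    intro v S S' h
    simp only [tr, TM2.stepAux, Equiv.symm_apply_apply]
    exact ih _ _ _ h
  | branch f q q' ih ih' =>
    intro v S S' h
    simp only [tr, TM2.stepAux, Equiv.symm_apply_apply]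
    cases f v
    · exact ih' _ _ _ h
    · exact ih _ _ _ h
  | goto f =>
    intro v S S' h
    simp only [tr, TM2.stepAux, Equiv.symm_apply_apply, Option.map_some]
    exact ⟨trivial, trivial, h⟩
  | halt =>
    intro v S S' h
    simp only [tr, TM2.stepAux, Option.map_none]
    exact ⟨trivial, trivial, h⟩

/-- the transported program -/
def trp (M : Λ → TM2.Stmt Γ Λ σ) : Λ' → TM2.Stmt Γ' Λ' σ' := fun l => tr eK eΓ eΛ eσ (M (eΛ.symm l))

theorem tr_cfg (M : Λ → TM2.Stmt Γ Λ σ) (l₀ : Λ) (v₀ : σ) {S₀ : ∀ k, List (Γ k)}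
    {S₀' : ∀ k, List (Γ' k)} (h0 : Rel eK eΓ S₀ S₀') (t : ℕ) :
    (∀ C : TM2.Cfg Γ Λ σ, cfg M l₀ v₀ S₀ t = some C → ∃ S', Rel eK eΓ C.stk S' ∧
      cfg (trp eK eΓ eΛ eσ M) (eΛ l₀) (eσ v₀) S₀' t = some ⟨C.l.map eΛ, eσ C.var, S'⟩) ∧
    (cfg M l₀ v₀ S₀ t = none → cfg (trp eK eΓ eΛ eσ M) (eΛ l₀) (eσ v₀) S₀' t = none) := by
  induction t with
  | zero =>
    rw [cfg_zero, cfg_zero]
    refine ⟨fun C hC => ⟨S₀', ?_, ?_⟩, fun h => by simp at h⟩
    · rw [← Option.some.inj hC]; exact h0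
    · rw [← Option.some.inj hC]; rfl
  | succ t ih =>
    rw [cfg_succ, cfg_succ]
    obtain ⟨ih1, ih2⟩ := ih
    rcases h1 : cfg M l₀ v₀ S₀ t with _ | C1
    · rw [ih2 h1]
      exact ⟨fun C hC => by simp at hC, fun _ => rfl⟩
    · obtain ⟨S', hS', h2⟩ := ih1 C1 h1
      rw [h2]
      obtain ⟨l, v, S⟩ := C1
      cases l with
      | none =>
        simp only [Option.bind_some, Option.map_none, TM2.step]
        exact ⟨fun C hC => by simp at hC, fun _ => trivial⟩
      | some l =>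
        simp only [Option.bind_some, Option.map_some, TM2.step]
        refine ⟨fun C hC => ?_, fun h => by simp at h⟩
        have hC := Option.some.inj hC
        obtain ⟨r1, r2, r3⟩ := tr_step eK eΓ eΛ eσ (M l) v S S' hS'
        have e : trp eK eΓ eΛ eσ M (eΛ l) = tr eK eΓ eΛ eσ (M l) := by
          unfold trp; rw [Equiv.symm_apply_apply]
        refine ⟨(TM2.stepAux (tr eK eΓ eΛ eσ (M l)) (eσ v) S').stk, by rw [← hC]; exact r3, ?_⟩
        rw [e, ← hC]
        rcases h3 : TM2.stepAux (tr eK eΓ eΛ eσ (M l)) (eσ v) S' with ⟨l3, v3, S3⟩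
        rw [h3] at r1 r2
        simp only at r1 r2
        rw [r1, r2]

theorem tr_raw {b : ℕ} {M : Λ → TM2.Stmt Γ Λ σ} {l₀ : Λ} {v₀ : σ} {inp out : K}
    {rd : Fin b → Γ inp} {wr : Γ out → ℤ} {f : ℝ → ℝ} {E : ℝ} {T D : ℕ → ℕ} {w : List (Fin b)}
    (h : RawComp M l₀ v₀ inp out rd wr f E T D w) :
    RawComp (trp eK eΓ eΛ eσ M) (eΛ l₀) (eσ v₀) (eK inp) (eK out) (fun a => eΓ inp (rd a))
      (fun a => wr ((eΓ out).symm a)) f E T D w := by
  have h0 : Rel eK eΓ (Function.update (fun _ => []) inp (w.map rd))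
      (Function.update (fun _ => []) (eK inp) (w.map (fun a => eΓ inp (rd a)))) := by
    have h1 : Rel eK eΓ (fun _ => []) (fun _ => []) := fun k => by simp
    have h2 := rel_update eK eΓ h1 inp (w.map rd)
    rw [List.map_map] at h2
    exact h2
  have back : ∀ t (C : TM2.Cfg Γ' Λ' σ'), cfg (trp eK eΓ eΛ eσ M) (eΛ l₀) (eσ v₀)
      (Function.update (fun _ => []) (eK inp) (w.map (fun a => eΓ inp (rd a)))) t = some C →
      ∃ C₁ : TM2.Cfg Γ Λ σ, cfg M l₀ v₀ (Function.update (fun _ => []) inp (w.map rd)) t = some C₁ ∧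
        ∀ k, C.stk (eK k) = (C₁.stk k).map (eΓ k) := by
    intro t C hC
    obtain ⟨a1, a2⟩ := tr_cfg eK eΓ eΛ eσ M l₀ v₀ h0 t
    rcases h1 : cfg M l₀ v₀ (Function.update (fun _ => []) inp (w.map rd)) t with _ | C1
    · rw [a2 h1] at hC; simp at hC
    · obtain ⟨S', hS', h2⟩ := a1 C1 h1
      rw [hC] at h2
      have h3 := Option.some.inj h2
      exact ⟨C1, rfl, fun k => by rw [h3]; exact hS' k⟩
  refine ⟨fun t t' ht C C' hC hC' => ?_, fun t t' ht C C' hC hC' => ?_, fun n hn => ?_⟩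
  · obtain ⟨C1, c1, c2⟩ := back t C hC
    obtain ⟨C1', c1', c2'⟩ := back t' C' hC'
    rw [c2, c2']
    exact (h.reads t t' ht C1 C1' c1 c1').map _
  · obtain ⟨C1, c1, c2⟩ := back t C hC
    obtain ⟨C1', c1', c2'⟩ := back t' C' hC'
    rw [c2, c2']
    exact (h.writes t t' ht C1 C1' c1 c1').map _
  · obtain ⟨t, ht, C, hC, c1, c2, c3⟩ := h.works n hn
    obtain ⟨S', hS', h2⟩ := (tr_cfg eK eΓ eΛ eσ M l₀ v₀ h0 t).1 C hC
    refine ⟨t, ht, _, h2, ?_, ?_, ?_⟩
    · show w.length ≤ (S' (eK inp)).length + (n + D n)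
      rw [hS' inp, List.length_map]; exact c1
    · show n ≤ (S' (eK out)).length
      rw [hS' out, List.length_map]; exact c2
    · show |f (vl b (List.map (fun a : Fin b => ((a : ℕ) : ℤ)) w)) - vl b (List.map
        (fun a => wr ((eΓ out).symm a)) (List.take n (S' (eK out)).reverse))| ≤ E / (b : ℝ) ^ n
      rw [hS' out, ← List.map_reverse, ← List.map_take, List.map_map]
      have e1 : ((fun a => wr ((eΓ out).symm a)) ∘ ⇑(eΓ out)) = wr := by
        funext a; simp
      rw [e1]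
      exact c3

end tr

/-- every finite machine can be replaced by one of the countable family -/
theorem exists_mach {b : ℕ} {K : Type} [Fintype K] [DecidableEq K] {Γ : K → Type}
    [∀ k, Fintype (Γ k)] {Λ : Type} [Fintype Λ] {σ : Type} [Fintype σ] (M : Λ → TM2.Stmt Γ Λ σ)
    (l₀ : Λ) (v₀ : σ) {inp out : K} (ne : inp ≠ out) (rd : Fin b → Γ inp) (wr : Γ out → ℤ) :
    ∃ M' : Mach b, ∀ (f : ℝ → ℝ) (E : ℝ) (T D : ℕ → ℕ) (w : List (Fin b)),
      RawComp M l₀ v₀ inp out rd wr f E T D w →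
      RawComp M'.prog M'.l₀ M'.v₀ M'.inp M'.out M'.rd M'.wr f E T D w := by
  classical
  let eK := Fintype.equivFin K
  let g : Fin (Fintype.card K) → ℕ := fun i => Fintype.card (Γ (eK.symm i))
  have hg : ∀ k, Fintype.card (Γ k) = g (eK k) := by
    intro k
    show Fintype.card (Γ k) = Fintype.card (Γ (eK.symm (eK k)))
    rw [eK.symm_apply_apply]
  let eΓ : ∀ k, Γ k ≃ Fin (g (eK k)) := fun k => Fintype.equivFinOfCardEq (hg k)
  let eΛ := Fintype.equivFin Λ
  let eσ := Fintype.equivFin σ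
  refine ⟨{ k := Fintype.card K, g := g, l := Fintype.card Λ, s := Fintype.card σ
            prog := trp (Γ' := fun i : Fin (Fintype.card K) => Fin (g i)) eK eΓ eΛ eσ M
            l₀ := eΛ l₀, v₀ := eσ v₀, inp := eK inp, out := eK out
            ne := fun h => ne (eK.injective h)
            rd := fun a => eΓ inp (rd a), wr := fun a => wr ((eΓ out).symm a) },
    fun f E T D w h => tr_raw (Γ' := fun i : Fin (Fintype.card K) => Fin (g i)) eK eΓ eΛ eσ h⟩

end Pool.Agent.H43.RRL
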